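import Pool.Agent.N138.SV.Fin

set_option autoImplicit false

/-! # The p-adic strong monodromy conjecture for the sums of arbitrary plane curves, every prime

Let `F = f_1(x_1, y_1) + ... + f_k(x_k, y_k)`, with ARBITRARY nonconstant polynomials
`f_i ∈ ℚ[x, y]` (any `k ≥ 1`; the `f_i` may be nonreduced, and all their singularities, also the
ones with critical values `≠ 0`, may be arbitrary, so the singularities of `F` are in general not
isolated). For EVERY prime `p` (no prime is excluded) the real part of every pole of the zeta
function of `F` is a root of `b_F`. The theorem is proved for a class of polynomials (and ideals)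
`Cl2` which contains these sums, the class `Cl false` of `Pool/Agent/N138/SU/Cl.lean`, and is closed
under adding weighted homogeneous polynomials `G(z)` with an isolated critical point, under the
Thom-Sebastiani sums `∑ y_j f_j(x) + g(z)`, `(f_j)` an ideal of the class, under products and under
products of powers of forms over ideals: see `Pool/Agent/N138/SV/Cl2.lean`.

Method. In contrast with `F(x) + G(y)`, `G` weighted homogeneous (`Pool/Agent/N138/SU`), there is no
exact relation between `b_F` and the `b_{f_i}` if the summands are not quasi-homogeneous: the roots of
`b_{f_i}` do not determine those of `b_F`. So the poles are compared with *leading exponents of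
periods*.
* `Per g e0`: there is a family of linear functionals `c_m`, `m ≥ 0`, on `ℂ[x]` which behave as the
  coefficients of `τ ^ (e0 - m)` in the expansions of the integrals of `h exp(- τ g)` over a cycle
  (closed under multiplication by `x_i` and the derivatives), with `c_0(1) ≠ 0`. Then `e0` is a root of
  `b_g(s) / (s + 1)` (`A1`), and the leading exponents are additive: `Per f_i e_i` for all `i` gives
  `Per (∑ f_i) (∑ e_i)` (`A2`).
* If `e0 = -n / a` is the candidate of an exceptional curve `E` of a plane curve `g` and the
  twisted residue form on `E` is not exact, then `Per g e0` (`A4`, `A5`; cohomology of a rank one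
  local system on a punctured line), and similarly for the multiple components (`A6`). If it is exact,
  then the exceptional curve does not contribute to the poles of the zeta functions of `g` TWISTED by
  any character of `ℤ_p ^ *`, for every prime `p` (`B1`, `B2`, `B3`: the tree of the infinitely near
  points).
* Near every point the distribution of a plane curve `g - g(P)` is invariant under the
  multiplication by the units near `1` (`C0`, ..., `C4`). So the exponential sums `E_i(u p ^ (-e))` of
  the pieces of `f_i` are locally constant in the unit `u`, uniformly in `e`, and the poles of the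
  twisted zeta functions of `F` are products `T_1 ... T_k` of those of the pieces at points with
  critical values `λ_1 + ... + λ_k = 0` (`D1`, `D3`); the other pieces do not contribute (`D2`). -/

namespace Pool.Agent.N138.SV.Old.SumsOfPlaneCurves

open MvPolynomial Pool.Agent.H628R4.TP Pool.Agent.Y230.PT Pool.Agent.N138.SV

/-- **The strong monodromy conjecture for the class `Cl2` and every prime `p`.** Let `F` be in the
class, for instance `F = f_1(x_1, y_1) + ... + f_k(x_k, y_k)` with arbitrary nonconstant `f_i`. Let
`b` satisfy a functional equation `b(s) F ^ s = P(s) F ^ (s + 1)`, for instance `b = b_F`, let `Z` be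
the meromorphic continuation of the zeta function `zetaQ p F` of `F` (the integral of `|F|_p ^ s` over
`ℤ_p ^ n`), and let `s₀` be a pole of `Z`. Then `b(Re s₀) = 0`. -/
theorem result {V : Type} [Fintype V] (F : MvPolynomial V ℚ)
    (hF : Cl2 .ideal ⟨V, Fin 1, fun _ => F⟩) (p : ℕ) [Fact p.Prime]
    (b : Polynomial ℂ) (hb : IsBFunction (map (algebraMap ℚ ℂ) F) b)
    (Z : ℂ → ℂ) (hZ : MeromorphicOn Z Set.univ)
    (hZp : ∀ s : ℂ, 0 < s.re → Z s = zetaQ p F s) (s₀ : ℂ) (hs₀ : meromorphicOrderAt Z s₀ < 0) :
    b.eval (s₀.re : ℂ) = 0 :=
  cl2_pole hy F hF b hb Z hZ hZp s₀ hs₀

end Pool.Agent.N138.SV.Old.SumsOfPlaneCurves
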